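import Pool.Agent.R868.AEC.Emb

/-!
Negative answer to Q2 of MP_c0c493_ag: the projective line has two projective embeddings such that
one image is (cohomologically) approximately elliptically connected and the other one is not.
-/

set_option autoImplicit false

namespace Pool.Agent.Results.MP_c0c493_ag.LineVersusSextic

open Pool.Agent.R868.AEC

/-- There is an embedding of the projective line in `P⁷` whose image is approximately elliptically
connected, and for each `m` there is an embedding in `P^(m+1)` whose image is not. -/
theorem result :
    (∃ j : PS (Fin 2) → PS (Fin 8), IsEmbedding j ∧ ApproxEllipticallyConnected (Set.range j)) ∧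
    ∀ m : ℕ, ∃ j : PS (Fin 2) → PS (Fin (m + 2)),
      IsEmbedding j ∧ ¬ ApproxEllipticallyConnected (Set.range j) :=
  ⟨⟨j6, isEmbedding_j6, conn_j6⟩, fun m => ⟨j1 m, isEmbedding_j1 m, not_conn_j1 m⟩⟩

end Pool.Agent.Results.MP_c0c493_ag.LineVersusSextic
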